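import Mathlib

/-!
# Equitable `U_q(sl2)`-action on a `q`-Racah Leonard pair (MP_dc3d2a_al)
-/

open Module

namespace Pool.Agent.Results.MP_dc3d2a_al.EquitableModule

universe u v

/-! ## Leonard pairs and their parameter arrays -/

/-- irreducible tridiagonal matrices -/
def IrrTridiag {K : Type u} [Field K] {n : ℕ} (M : Matrix (Fin n) (Fin n) K) : Prop :=
  (∀ i j : Fin n, ((i : ℕ) + 1 < j ∨ (j : ℕ) + 1 < i) → M i j = 0) ∧
  (∀ i j : Fin n, (i : ℕ) + 1 = j → M i j ≠ 0 ∧ M j i ≠ 0)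

/-- `A, As` is a Leonard pair on `V`, `dim V = d + 1`. -/
def LeonardPair {K : Type u} [Field K] {V : Type v} [AddCommGroup V] [Module K V] (d : ℕ)
    (A As : V →ₗ[K] V) : Prop :=
  (∃ e : Basis (Fin (d + 1)) K V,
    (LinearMap.toMatrix e e A).IsDiag ∧ IrrTridiag (LinearMap.toMatrix e e As)) ∧
  (∃ e : Basis (Fin (d + 1)) K V,
    (LinearMap.toMatrix e e As).IsDiag ∧ IrrTridiag (LinearMap.toMatrix e e A))

/-- lower bidiagonal, diagonal `t 0, …, t d`, subdiagonal entries `1` -/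
def lowerBi {K : Type u} [Field K] (d : ℕ) (t : ℕ → K) : Matrix (Fin (d + 1)) (Fin (d + 1)) K :=
  fun i j => if i = j then t i else if (j : ℕ) + 1 = i then 1 else 0

/-- upper bidiagonal, diagonal `t 0, …, t d`, superdiagonal `f 1, …, f d` -/
def upperBi {K : Type u} [Field K] (d : ℕ) (t f : ℕ → K) :
    Matrix (Fin (d + 1)) (Fin (d + 1)) K :=
  fun i j => if i = j then t i else if (i : ℕ) + 1 = j then f j else 0

/-- `A, As` has parameter array `(th, ths; vf, f)`. -/
def HasParamArray {K : Type u} [Field K] {V : Type v} [AddCommGroup V] [Module K V] (d : ℕ)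
    (A As : V →ₗ[K] V) (th ths vf f : ℕ → K) : Prop :=
  (∃ e : Basis (Fin (d + 1)) K V, LinearMap.toMatrix e e A = lowerBi d th ∧
    LinearMap.toMatrix e e As = upperBi d ths vf) ∧
  (∃ e : Basis (Fin (d + 1)) K V, LinearMap.toMatrix e e A = lowerBi d (fun i => th (d - i)) ∧
    LinearMap.toMatrix e e As = upperBi d ths f)

/-- `λ_i(x)` -/
def lam {K : Type u} [Field K] (q : K) (d : ℕ) (x : K) (i : ℕ) : K :=
  x * q ^ (2 * (i : ℤ) - d) + x⁻¹ * q ^ ((d : ℤ) - 2 * i)

/-- `u_i` -/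
def uu {K : Type u} [Field K] (q : K) (d i : ℕ) : K :=
  (q ^ (-(i : ℤ)) - q ^ (i : ℤ)) * (q ^ ((d : ℤ) - i + 1) - q ^ ((i : ℤ) - d - 1))

/-- `r_i(x)` -/
def rr {K : Type u} [Field K] (q : K) (d : ℕ) (x : K) (i : ℕ) : K :=
  q ^ (-(i : ℤ)) - x * q ^ ((i : ℤ) - d - 1)

/-- the first split sequence -/
def vphi {K : Type u} [Field K] (a b c q : K) (d i : ℕ) : K :=
  q ^ (d + 1) / (a * b) * uu q d i * rr q d (a * b * c) i * rr q d (a * b / c) i

/-- the second split sequence -/
def phi {K : Type u} [Field K] (a b c q : K) (d i : ℕ) : K :=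
  a * q ^ (d + 1) / b * uu q d i * rr q d (b * c / a) i * rr q d (b / (a * c)) i

/-! ## `U_q(sl2)` in its equitable presentation -/

/-- the generators -/
inductive Gen | x | xi | y | z

open FreeAlgebra in
/-- the relations -/
inductive UqRel {K : Type u} [Field K] (q : K) : FreeAlgebra K Gen → FreeAlgebra K Gen → Prop
  | xxi : UqRel q (ι K Gen.x * ι K Gen.xi) 1
  | xix : UqRel q (ι K Gen.xi * ι K Gen.x) 1
  | xy : UqRel q (q • (ι K Gen.x * ι K Gen.y) - q⁻¹ • (ι K Gen.y * ι K Gen.x)) ((q - q⁻¹) • 1)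
  | yz : UqRel q (q • (ι K Gen.y * ι K Gen.z) - q⁻¹ • (ι K Gen.z * ι K Gen.y)) ((q - q⁻¹) • 1)
  | zx : UqRel q (q • (ι K Gen.z * ι K Gen.x) - q⁻¹ • (ι K Gen.x * ι K Gen.z)) ((q - q⁻¹) • 1)

/-- `U_q(sl2)` -/
abbrev Uq {K : Type u} [Field K] (q : K) : Type u := RingQuot (UqRel q)

/-- the image of a generator in `U_q(sl2)` -/
def gen {K : Type u} [Field K] (q : K) (g : Gen) : Uq q :=
  RingQuot.mkAlgHom K (UqRel q) (FreeAlgebra.ι K g)

/-- commutator of operators -/
def comm {K : Type u} [Field K] {V : Type v} [AddCommGroup V] [Module K V]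
    (P R : Module.End K V) : Module.End K V := P * R - R * P

/-- `V` is irreducible under `ρ : U_q(sl2) → End V`. -/
def Irred {K : Type u} [Field K] {q : K} {V : Type v} [AddCommGroup V] [Module K V]
    (ρ : Uq q →ₐ[K] Module.End K V) : Prop :=
  Nontrivial V ∧ ∀ W : Submodule K V, (∀ x : Uq q, ∀ w ∈ W, ρ x w ∈ W) → W = ⊥ ∨ W = ⊤

/-- `Ae` is the map `A^ε`:
`(q² - q⁻²) A^ε = q⁻¹ A As - q As A + (q - q⁻¹)(s_a s_b + s_c t) I` -/
def IsAeps {K : Type u} [Field K] {V : Type v} [AddCommGroup V] [Module K V]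
    (a b c q : K) (d : ℕ) (A As Ae : Module.End K V) : Prop :=
  (q ^ 2 - (q ^ 2)⁻¹) • Ae = q⁻¹ • (A * As) - q • (As * A) +
    ((q - q⁻¹) * ((a + a⁻¹) * (b + b⁻¹) + (c + c⁻¹) * (q ^ (d + 1) + (q ^ (d + 1))⁻¹))) •
      (1 : Module.End K V)

/-! ## Leonard pairs are irreducible -/

section Irr

variable {K : Type u} [Field K] {V : Type v} [AddCommGroup V] [Module K V]

/-- an eigenvector of an irreducible tridiagonal map is determined by its first coordinate -/
lemma eigen_zero {d : ℕ} (e : Basis (Fin (d + 1)) K V) (A : V →ₗ[K] V)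
    (h : IrrTridiag (LinearMap.toMatrix e e A)) (m : K) (w : V) (hw : A w = m • w)
    (h0 : e.repr w 0 = 0) : w = 0 := by
  have key : ∀ n : ℕ, ∀ hn : n < d + 1, e.repr w ⟨n, hn⟩ = 0 := by
    intro n
    induction n using Nat.strong_induction_on with
    | _ n ih =>
      intro hn
      rcases Nat.eq_zero_or_pos n with rfl | hpos
      · exact h0
      · obtain ⟨k, rfl⟩ : ∃ k, n = k + 1 := ⟨n - 1, by omega⟩
        have hk : k < d + 1 := by omega
        have h1 : e.repr (A w) ⟨k, hk⟩ = m * e.repr w ⟨k, hk⟩ := by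
          rw [hw]; simp
        rw [ih k (by omega) hk, mul_zero] at h1
        have h2 : e.repr (A w) ⟨k, hk⟩ =
            ∑ j, LinearMap.toMatrix e e A ⟨k, hk⟩ j * e.repr w j := by
          have := congrFun (LinearMap.toMatrix_mulVec_repr e e A w) ⟨k, hk⟩
          rw [← this]
          rfl
        rw [h2] at h1
        rw [Finset.sum_eq_single (⟨k + 1, hn⟩ : Fin (d + 1))] at h1
        · rcases mul_eq_zero.1 h1 with h3 | h3
          · exact absurd h3 (h.2 ⟨k, hk⟩ ⟨k + 1, hn⟩ rfl).1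
          · exact h3
        · intro j _ hj
          rcases lt_or_ge (j : ℕ) (k + 1) with hlt | hge
          · have := ih j hlt j.2
            rw [show (⟨(j : ℕ), j.2⟩ : Fin (d + 1)) = j from rfl] at this
            rw [this, mul_zero]
          · have hne : (j : ℕ) ≠ k + 1 := fun hh => hj (Fin.ext hh)
            rw [h.1 ⟨k, hk⟩ j (Or.inl (by simp only; omega)), zero_mul]
        · intro hh
          exact absurd (Finset.mem_univ _) hh
  apply e.repr.injective
  ext i
  rw [map_zero]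
  exact key i i.2

lemma diag_apply {d : ℕ} (e : Basis (Fin (d + 1)) K V) (A : V →ₗ[K] V)
    (h : (LinearMap.toMatrix e e A).IsDiag) (i : Fin (d + 1)) :
    A (e i) = LinearMap.toMatrix e e A i i • e i := by
  have h1 : A (e i) = ∑ j, LinearMap.toMatrix e e A j i • e j := by
    have := e.sum_repr (A (e i))
    rw [← this]
    refine Finset.sum_congr rfl fun j _ => ?_
    rw [LinearMap.toMatrix_apply]
  rw [h1]
  rw [Finset.sum_eq_single i]
  · intro j _ hj
    rw [h hj, zero_smul]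
  · intro hh
    exact absurd (Finset.mem_univ _) hh

/-- the eigenvalues of `A` are distinct -/
lemma mu_inj {d : ℕ} (e f : Basis (Fin (d + 1)) K V) (A : V →ₗ[K] V)
    (hd : (LinearMap.toMatrix e e A).IsDiag) (hf : IrrTridiag (LinearMap.toMatrix f f A))
    (i j : Fin (d + 1)) (hij : i ≠ j) :
    LinearMap.toMatrix e e A i i ≠ LinearMap.toMatrix e e A j j := by
  intro hm
  have h1 := diag_apply e A hd i
  have h2 := diag_apply e A hd j
  set m := LinearMap.toMatrix e e A i i with hmdef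
  rw [← hm] at h2
  have hz : ∀ w : V, A w = m • w → f.repr w 0 = 0 → w = 0 := fun w hw h0 =>
    eigen_zero f A hf m w hw h0
  have hw : f.repr (e j) 0 • e i - f.repr (e i) 0 • e j = 0 := by
    apply hz
    · rw [map_sub, map_smul, map_smul, h1, h2, smul_sub, smul_comm m, smul_comm m]
    · simp [mul_comm]
  have hc : f.repr (e j) 0 = 0 := by
    have := congrArg (fun w => e.repr w i) hw
    simpa [Finsupp.single_apply, hij, hij.symm] using this
  have := hz (e j) h2 hc
  exact e.ne_zero j this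

/-- projections: an invariant subspace contains the components of its elements -/
lemma comp_mem {d : ℕ} (e : Basis (Fin (d + 1)) K V) (A : V →ₗ[K] V)
    (hd : (LinearMap.toMatrix e e A).IsDiag)
    (hinj : ∀ i j : Fin (d + 1), i ≠ j →
      LinearMap.toMatrix e e A i i ≠ LinearMap.toMatrix e e A j j)
    (W : Submodule K V) (hW : ∀ w ∈ W, A w ∈ W) (w : V) (hw : w ∈ W) (i : Fin (d + 1))
    (hi : e.repr w i ≠ 0) : e i ∈ W := by
  classical
  set m : Fin (d + 1) → K := fun j => LinearMap.toMatrix e e A j j with hm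
  have hA : ∀ j, A (e j) = m j • e j := fun j => diag_apply e A hd j
  -- apply the product of (A - m j) over a set of j
  have key : ∀ s : Finset (Fin (d + 1)), i ∉ s →
      ∃ w' ∈ W, ∀ k, e.repr w' k = (∏ j ∈ s, (m k - m j)) * e.repr w k := by
    intro s
    induction s using Finset.induction_on with
    | empty =>
      intro _
      exact ⟨w, hw, fun k => by simp⟩
    | insert a s ha ih =>
      intro hia
      obtain ⟨w', hw', hk⟩ := ih (fun h => hia (Finset.mem_insert_of_mem h))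
      refine ⟨A w' - m a • w', W.sub_mem (hW _ hw') (W.smul_mem _ hw'), fun k => ?_⟩
      have hAk : e.repr (A w') k = m k * e.repr w' k := by
        have h1 := congrFun (LinearMap.toMatrix_mulVec_repr e e A w') k
        rw [← h1]
        change ∑ j, LinearMap.toMatrix e e A k j * e.repr w' j = _
        rw [Finset.sum_eq_single k]
        · intro j _ hj
          rw [hd hj.symm, zero_mul]
        · intro hh
          exact absurd (Finset.mem_univ _) hh
      rw [map_sub, map_smul, Finsupp.sub_apply, Finsupp.smul_apply, hAk, hk,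
        Finset.prod_insert ha, smul_eq_mul]
      ring
  obtain ⟨w', hw', hk⟩ := key (Finset.univ.erase i) (by simp)
  have h2 : w' = ((∏ j ∈ Finset.univ.erase i, (m i - m j)) * e.repr w i) • e i := by
    apply e.repr.injective
    ext k
    rw [hk k, map_smul, Finsupp.smul_apply, e.repr_self, smul_eq_mul]
    by_cases hki : k = i
    · subst hki; simp
    · rw [Finsupp.single_apply, if_neg (Ne.symm hki), mul_zero,
        Finset.prod_eq_zero (i := k) (by simp [hki]) (by simp), zero_mul]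
  have hne : (∏ j ∈ Finset.univ.erase i, (m i - m j)) * e.repr w i ≠ 0 := by
    refine mul_ne_zero (Finset.prod_ne_zero_iff.2 fun j hj => ?_) hi
    exact sub_ne_zero.2 (hinj i j (Finset.ne_of_mem_erase hj).symm)
  rw [h2] at hw'
  exact (W.smul_mem_iff hne).1 hw'

/-- a Leonard pair acts irreducibly -/
theorem leonard_irred {d : ℕ} {A As : V →ₗ[K] V} (h : LeonardPair d A As)
    (W : Submodule K V) (hA : ∀ w ∈ W, A w ∈ W) (hAs : ∀ w ∈ W, As w ∈ W) :
    W = ⊥ ∨ W = ⊤ := by
  obtain ⟨⟨e, he1, he2⟩, ⟨f, _, hf2⟩⟩ := h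
  have hinj := mu_inj e f A he1 hf2
  by_cases hW : W = ⊥
  · exact Or.inl hW
  right
  obtain ⟨w, hw, hw0⟩ := W.ne_bot_iff.1 hW
  obtain ⟨i, hi⟩ : ∃ i, e.repr w i ≠ 0 := by
    by_contra hcon
    push Not at hcon
    exact hw0 (e.repr.injective (by ext i; simpa using hcon i))
  have hcm := comp_mem e A he1 hinj W hA
  have hei : e i ∈ W := hcm w hw i hi
  have hAsr : ∀ j k : Fin (d + 1), e.repr (As (e j)) k = LinearMap.toMatrix e e As k j := by
    intro j k
    rw [LinearMap.toMatrix_apply]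
  have hup : ∀ n : ℕ, ∀ hn : n + 1 < d + 1, e ⟨n, by omega⟩ ∈ W → e ⟨n + 1, hn⟩ ∈ W := by
    intro n hn hmem
    refine hcm (As (e ⟨n, by omega⟩)) (hAs _ hmem) _ ?_
    rw [hAsr]
    exact (he2.2 ⟨n, by omega⟩ ⟨n + 1, hn⟩ rfl).2
  have hdown : ∀ n : ℕ, ∀ hn : n + 1 < d + 1, e ⟨n + 1, hn⟩ ∈ W → e ⟨n, by omega⟩ ∈ W := by
    intro n hn hmem
    refine hcm (As (e ⟨n + 1, hn⟩)) (hAs _ hmem) _ ?_
    rw [hAsr]
    exact (he2.2 ⟨n, by omega⟩ ⟨n + 1, hn⟩ rfl).1
  have h0 : e ⟨0, by omega⟩ ∈ W := by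
    have : ∀ n : ℕ, ∀ hn : n < d + 1, e ⟨n, hn⟩ ∈ W → e ⟨0, by omega⟩ ∈ W := by
      intro n
      induction n with
      | zero => intro _ h; exact h
      | succ k ih => intro hn h; exact ih (by omega) (hdown k hn h)
    exact this i i.2 hei
  have hall : ∀ n : ℕ, ∀ hn : n < d + 1, e ⟨n, hn⟩ ∈ W := by
    intro n
    induction n with
    | zero => intro _; exact h0
    | succ k ih => intro hn; exact hup k hn (ih (by omega))
  rw [eq_top_iff, ← e.span_eq, Submodule.span_le]
  rintro _ ⟨j, rfl⟩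
  exact hall j j.2

end Irr

/-! ## The basis of the second split form -/

section Split

variable {K : Type u} [Field K] {V : Type v} [AddCommGroup V] [Module K V]

/-- the basis vectors, extended by zero -/
noncomputable def bv {d : ℕ} (e : Basis (Fin (d + 1)) K V) (n : ℕ) : V :=
  if h : n < d + 1 then e ⟨n, h⟩ else 0

lemma bv_of_lt {d : ℕ} (e : Basis (Fin (d + 1)) K V) {n : ℕ} (h : n < d + 1) :
    bv e n = e ⟨n, h⟩ := by simp [bv, h]

lemma bv_of_ge {d : ℕ} (e : Basis (Fin (d + 1)) K V) {n : ℕ} (h : d + 1 ≤ n) :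
    bv e n = 0 := by simp [bv, Nat.not_lt.2 h]

lemma toMatrix_col {d : ℕ} (e : Basis (Fin (d + 1)) K V) (A : V →ₗ[K] V) (i : Fin (d + 1)) :
    A (e i) = ∑ j, LinearMap.toMatrix e e A j i • e j := by
  have := e.sum_repr (A (e i))
  rw [← this]
  refine Finset.sum_congr rfl fun j _ => ?_
  rw [LinearMap.toMatrix_apply]

lemma lower_apply {d : ℕ} (e : Basis (Fin (d + 1)) K V) (A : V →ₗ[K] V) (t : ℕ → K)
    (h : LinearMap.toMatrix e e A = lowerBi d t) (n : ℕ) :
    A (bv e n) = t n • bv e n + bv e (n + 1) := by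
  by_cases hn : n < d + 1
  · rw [bv_of_lt e hn, toMatrix_col e A, h]
    by_cases hn1 : n + 1 < d + 1
    · rw [bv_of_lt e hn1]
      have hne : (⟨n, hn⟩ : Fin (d + 1)) ≠ ⟨n + 1, hn1⟩ := by
        intro hh
        have := congrArg Fin.val hh
        simp at this
      rw [← Finset.sum_subset (Finset.subset_univ {(⟨n, hn⟩ : Fin (d + 1)), ⟨n + 1, hn1⟩}),
        Finset.sum_pair hne]
      · simp [lowerBi]
      · intro j _ hj
        have h1 : j ≠ ⟨n, hn⟩ := fun hh => hj (by simp [hh])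
        have h2 : n + 1 ≠ (j : ℕ) := fun hh => hj (by
          rw [Finset.mem_insert, Finset.mem_singleton]
          exact Or.inr (Fin.ext hh.symm))
        simp [lowerBi, h1, h2]
    · rw [bv_of_ge e (Nat.not_lt.1 hn1), Finset.sum_eq_single (⟨n, hn⟩ : Fin (d + 1))]
      · simp [lowerBi]
      · intro j _ hj
        have h2 : n + 1 ≠ (j : ℕ) := fun hh => hn1 (by rw [hh]; exact j.2)
        simp [lowerBi, hj, h2]
      · intro hh
        exact absurd (Finset.mem_univ _) hh
  · rw [bv_of_ge e (Nat.not_lt.1 hn), bv_of_ge e (by omega)]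
    simp

lemma upper_apply {d : ℕ} (e : Basis (Fin (d + 1)) K V) (A : V →ₗ[K] V) (t f : ℕ → K)
    (h : LinearMap.toMatrix e e A = upperBi d t f) (h0 : f 0 = 0) (h1 : f (d + 1) = 0) (n : ℕ) :
    A (bv e n) = t n • bv e n + f n • bv e (n - 1) := by
  by_cases hn : n < d + 1
  · rw [bv_of_lt e hn, toMatrix_col e A, h]
    rcases Nat.eq_zero_or_pos n with rfl | hpos
    · rw [h0, zero_smul, add_zero, Finset.sum_eq_single (⟨0, hn⟩ : Fin (d + 1))]
      · simp [upperBi]
      · intro j _ hj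
        have hj0 : j ≠ 0 := hj
        simp [upperBi, hj0]
      · intro hh
        exact absurd (Finset.mem_univ _) hh
    · obtain ⟨k, rfl⟩ : ∃ k, n = k + 1 := ⟨n - 1, by omega⟩
      have hk : k < d + 1 := by omega
      rw [Nat.add_sub_cancel, bv_of_lt e hk]
      have hne : (⟨k + 1, hn⟩ : Fin (d + 1)) ≠ ⟨k, hk⟩ := by
        intro hh
        have := congrArg Fin.val hh
        simp at this
      rw [← Finset.sum_subset (Finset.subset_univ {(⟨k + 1, hn⟩ : Fin (d + 1)), ⟨k, hk⟩}),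
        Finset.sum_pair hne]
      · simp [upperBi]
      · intro j _ hj
        have h1 : j ≠ ⟨k + 1, hn⟩ := fun hh => hj (by simp [hh])
        have h2 : (j : ℕ) ≠ k := fun hh => hj (by
          rw [Finset.mem_insert, Finset.mem_singleton]
          exact Or.inr (Fin.ext hh))
        simp [upperBi, h1, h2]
  · rw [bv_of_ge e (Nat.not_lt.1 hn), map_zero, smul_zero, zero_add]
    rcases Nat.eq_or_lt_of_le (Nat.not_lt.1 hn) with hh | hh
    · rw [← hh, h1, zero_smul]
    · rw [bv_of_ge e (by omega), smul_zero]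

/-- the second split sequence of a Leonard pair has no zero entry -/
lemma split_ne_zero {d : ℕ} {A As : V →ₗ[K] V} (hL : LeonardPair d A As)
    (e : Basis (Fin (d + 1)) K V) (t ts f : ℕ → K)
    (hA : ∀ n, A (bv e n) = t n • bv e n + bv e (n + 1))
    (hAs : ∀ n, As (bv e n) = ts n • bv e n + f n • bv e (n - 1))
    (k : ℕ) (hk1 : 1 ≤ k) (hkd : k ≤ d) : f k ≠ 0 := by
  intro hf
  set W : Submodule K V := Submodule.span K {w | ∃ n, k ≤ n ∧ w = bv e n} with hW
  have hmem : ∀ n, k ≤ n → bv e n ∈ W := fun n hn => Submodule.subset_span ⟨n, hn, rfl⟩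
  have hWA : ∀ w ∈ W, A w ∈ W := by
    intro w hw
    induction hw using Submodule.span_induction with
    | mem w hw =>
      obtain ⟨n, hn, rfl⟩ := hw
      rw [hA]
      exact W.add_mem (W.smul_mem _ (hmem n hn)) (hmem _ (by omega))
    | zero => rw [map_zero]; exact W.zero_mem
    | add x y _ _ hx hy => rw [map_add]; exact W.add_mem hx hy
    | smul r x _ hx => rw [map_smul]; exact W.smul_mem _ hx
  have hWAs : ∀ w ∈ W, As w ∈ W := by
    intro w hw
    induction hw using Submodule.span_induction with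
    | mem w hw =>
      obtain ⟨n, hn, rfl⟩ := hw
      rw [hAs]
      refine W.add_mem (W.smul_mem _ (hmem n hn)) ?_
      rcases Nat.eq_or_lt_of_le hn with hh | hh
      · rw [← hh, hf, zero_smul]; exact W.zero_mem
      · exact W.smul_mem _ (hmem _ (by omega))
    | zero => rw [map_zero]; exact W.zero_mem
    | add x y _ _ hx hy => rw [map_add]; exact W.add_mem hx hy
    | smul r x _ hx => rw [map_smul]; exact W.smul_mem _ hx
  rcases leonard_irred hL W hWA hWAs with h | h
  · have := hmem k le_rfl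
    rw [h, Submodule.mem_bot, bv_of_lt e (by omega)] at this
    exact e.ne_zero _ this
  · have h0 : bv e 0 ∈ W := by rw [h]; trivial
    have hc : ∀ w ∈ W, e.repr w ⟨0, by omega⟩ = 0 := by
      intro w hw
      induction hw using Submodule.span_induction with
      | mem w hw =>
        obtain ⟨n, hn, rfl⟩ := hw
        by_cases hnd : n < d + 1
        · rw [bv_of_lt e hnd, e.repr_self, Finsupp.single_apply, if_neg]
          intro hh
          have := congrArg Fin.val hh
          simp at this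
          omega
        · rw [bv_of_ge e (Nat.not_lt.1 hnd), map_zero, Finsupp.zero_apply]
      | zero => rw [map_zero, Finsupp.zero_apply]
      | add x y _ _ hx hy => rw [map_add, Finsupp.add_apply, hx, hy, add_zero]
      | smul r x _ hx => rw [map_smul, Finsupp.smul_apply, hx, smul_zero]
    have := hc _ h0
    rw [bv_of_lt e (by omega), e.repr_self, Finsupp.single_eq_same] at this
    exact one_ne_zero this

end Split

/-! ## Scalars -/

section Scalars

variable {K : Type u} [Field K]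

lemma lam_rev (q : K) (d : ℕ) (x : K) (i : ℕ) (hi : i ≤ d) (hq : q ≠ 0) :
    lam q d x (d - i) = x * (q ^ d / q ^ (2 * i)) + x⁻¹ * (q ^ (2 * i) / q ^ d) := by
  unfold lam
  have h1 : (2 * ((d - i : ℕ) : ℤ) - d) = (d : ℤ) - (2 * i : ℕ) := by
    push_cast [Nat.cast_sub hi]; ring
  have h2 : ((d : ℤ) - 2 * ((d - i : ℕ) : ℤ)) = ((2 * i : ℕ) : ℤ) - d := by
    push_cast [Nat.cast_sub hi]; ring
  rw [h1, h2, zpow_sub₀ hq, zpow_sub₀ hq, zpow_natCast, zpow_natCast]

lemma lam_eq (q : K) (d : ℕ) (x : K) (i : ℕ) (hq : q ≠ 0) :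
    lam q d x i = x * (q ^ (2 * i) / q ^ d) + x⁻¹ * (q ^ d / q ^ (2 * i)) := by
  unfold lam
  have h1 : (2 * (i : ℤ) - d) = ((2 * i : ℕ) : ℤ) - (d : ℕ) := by push_cast; ring
  have h2 : ((d : ℤ) - 2 * (i : ℤ)) = (d : ℤ) - ((2 * i : ℕ) : ℤ) := by push_cast; ring
  rw [h1, h2, zpow_sub₀ hq, zpow_sub₀ hq, zpow_natCast, zpow_natCast]

lemma phi_eq (a b c q : K) (d i : ℕ) (ha : a ≠ 0) (hb : b ≠ 0) (hc : c ≠ 0) (hq : q ≠ 0) :
    phi a b c q d i = (1 - q ^ (2 * i)) * (1 - q ^ (2 * i) / (q ^ 2 * (q ^ d) ^ 2)) *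
      (a⁻¹ - c / b * (q ^ d / q ^ (2 * i)) * q) * (b - a / c * (q ^ d / q ^ (2 * i)) * q) := by
  unfold phi uu rr
  have h1 : q ^ ((d : ℤ) - i + 1) = q ^ d * q / q ^ i := by
    rw [show ((d : ℤ) - i + 1) = ((d + 1 : ℕ) : ℤ) - (i : ℕ) by push_cast; ring, zpow_sub₀ hq,
      zpow_natCast, zpow_natCast, pow_succ]
  have h2 : q ^ ((i : ℤ) - d - 1) = q ^ i / (q ^ d * q) := by
    rw [show ((i : ℤ) - d - 1) = (i : ℤ) - ((d + 1 : ℕ) : ℤ) by push_cast; ring, zpow_sub₀ hq,
      zpow_natCast, zpow_natCast, pow_succ]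
  have h3 : q ^ (-(i : ℤ)) = (q ^ i)⁻¹ := by rw [zpow_neg, zpow_natCast]
  rw [h1, h2, h3, zpow_natCast, pow_mul', pow_succ]
  have hR : q ^ i ≠ 0 := pow_ne_zero _ hq
  have hD : q ^ d ≠ 0 := pow_ne_zero _ hq
  generalize q ^ i = R at *
  generalize q ^ d = D at *
  field_simp
  ring

end Scalars

/-! ## The operators `X, Y, Z` -/

section Ops

variable {K : Type u} [Field K] {V : Type v} [AddCommGroup V] [Module K V]

/-- `g_n` -/
def gg (a b c q : K) (d n : ℕ) : K := a⁻¹ - c / b * (q ^ d / q ^ (2 * n)) * q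

/-- `y_n z_n` -/
def UU (q : K) (d n : ℕ) : K := (1 - q ^ (2 * n)) * (1 - q ^ (2 * n) / (q ^ 2 * (q ^ d) ^ 2))

/-- the vector `g_{n+1}⁻¹ v_{n+1}` -/
noncomputable def wv {d : ℕ} (e : Basis (Fin (d + 1)) K V) (a b c q : K) (n : ℕ) : V :=
  (gg a b c q d (n + 1))⁻¹ • bv e (n + 1)

/-- `X` -/
noncomputable def Xop {d : ℕ} (e : Basis (Fin (d + 1)) K V) (q : K) : Module.End K V :=
  e.constr K (fun i => (q ^ d / q ^ (2 * (i : ℕ))) • e i)

/-- `X⁻¹` -/
noncomputable def Xinv {d : ℕ} (e : Basis (Fin (d + 1)) K V) (q : K) : Module.End K V :=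
  e.constr K (fun i => (q ^ (2 * (i : ℕ)) / q ^ d) • e i)

/-- `Y` -/
noncomputable def Yop {d : ℕ} (e : Basis (Fin (d + 1)) K V) (a b c q : K) : Module.End K V :=
  e.constr K (fun i => (q ^ (2 * (i : ℕ)) / q ^ d) • e i + wv e a b c q i)

/-- `Z` -/
noncomputable def Zop {d : ℕ} (e : Basis (Fin (d + 1)) K V) (a b c q : K) : Module.End K V :=
  e.constr K (fun i => (q ^ (2 * (i : ℕ)) / q ^ d) • e i +
    (UU q d i * gg a b c q d i) • bv e ((i : ℕ) - 1))

lemma ext_bv {d : ℕ} (e : Basis (Fin (d + 1)) K V) {P Q : Module.End K V}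
    (h : ∀ n, n ≤ d → P (bv e n) = Q (bv e n)) : P = Q := by
  refine e.ext fun i => ?_
  have := h i (by omega)
  rwa [bv_of_lt e i.2] at this

variable {d : ℕ} (e : Basis (Fin (d + 1)) K V) (a b c q : K)

lemma Xop_apply (n : ℕ) : Xop e q (bv e n) = (q ^ d / q ^ (2 * n)) • bv e n := by
  by_cases hn : n < d + 1
  · rw [bv_of_lt e hn, Xop, e.constr_basis]
  · rw [bv_of_ge e (Nat.not_lt.1 hn)]; simp

lemma Xinv_apply (n : ℕ) : Xinv e q (bv e n) = (q ^ (2 * n) / q ^ d) • bv e n := by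
  by_cases hn : n < d + 1
  · rw [bv_of_lt e hn, Xinv, e.constr_basis]
  · rw [bv_of_ge e (Nat.not_lt.1 hn)]; simp

lemma Xop_w (n : ℕ) : Xop e q (wv e a b c q n) = (q ^ d / q ^ (2 * (n + 1))) • wv e a b c q n := by
  rw [wv, map_smul, Xop_apply, smul_comm]

lemma Yop_apply (n : ℕ) :
    Yop e a b c q (bv e n) = (q ^ (2 * n) / q ^ d) • bv e n + wv e a b c q n := by
  by_cases hn : n < d + 1
  · rw [bv_of_lt e hn, Yop, e.constr_basis]
  · rw [wv, bv_of_ge e (Nat.not_lt.1 hn), bv_of_ge e (show d + 1 ≤ n + 1 by omega)]; simp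

lemma Zop_apply (n : ℕ) (hn : n ≤ d) :
    Zop e a b c q (bv e n) = (q ^ (2 * n) / q ^ d) • bv e n +
      (UU q d n * gg a b c q d n) • bv e (n - 1) := by
  have hn' : n < d + 1 := by omega
  rw [bv_of_lt e hn', Zop, e.constr_basis]

lemma UU_zero : UU q d 0 = 0 := by simp [UU]

lemma UU_top (hq : q ≠ 0) : UU q d (d + 1) = 0 := by
  have : q ^ (2 * (d + 1)) / (q ^ 2 * (q ^ d) ^ 2) = 1 := by
    rw [div_eq_one_iff_eq (mul_ne_zero (pow_ne_zero _ hq) (pow_ne_zero _ (pow_ne_zero _ hq)))]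
    ring
  rw [UU, this, sub_self, mul_zero]

variable (hq : q ≠ 0) (hg : ∀ k, 1 ≤ k → k ≤ d → gg a b c q d k ≠ 0)
include hq hg

omit hq in
lemma gw (n : ℕ) : bv e (n + 1) = gg a b c q d (n + 1) • wv e a b c q n := by
  by_cases hn : n + 1 ≤ d
  · rw [wv, smul_smul, mul_inv_cancel₀ (hg _ (by omega) hn), one_smul]
  · rw [wv, bv_of_ge e (show d + 1 ≤ n + 1 by omega)]; simp

omit hq hg in
lemma Zop_zero : Zop e a b c q (bv e 0) = (1 / q ^ d) • bv e 0 := by
  rw [Zop_apply e a b c q 0 (Nat.zero_le _), UU_zero]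
  simp

omit hq hg in
lemma Zop_succ (n : ℕ) (hn : n + 1 ≤ d) :
    Zop e a b c q (bv e (n + 1)) = (q ^ (2 * (n + 1)) / q ^ d) • bv e (n + 1) +
      (UU q d (n + 1) * gg a b c q d (n + 1)) • bv e n := by
  rw [Zop_apply e a b c q _ hn, Nat.add_sub_cancel]

lemma Zop_w (n : ℕ) (hn : n ≤ d) :
    Zop e a b c q (wv e a b c q n) = (q ^ (2 * (n + 1)) / q ^ d) • wv e a b c q n +
      UU q d (n + 1) • bv e n := by
  by_cases hn1 : n + 1 ≤ d
  · rw [wv, map_smul, Zop_succ e a b c q n hn1, smul_add, smul_smul, smul_smul, smul_smul]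
    congr 2
    · ring
    · rw [mul_comm (UU q d (n + 1)), ← mul_assoc, inv_mul_cancel₀ (hg _ (by omega) hn1), one_mul]
  · have hnd : n = d := by omega
    subst hnd
    rw [UU_top q hq, wv, bv_of_ge e le_rfl]
    simp

omit hg in
lemma rel_XXinv : Xop e q * Xinv e q = 1 := by
  apply ext_bv e
  intro n _
  have hR : q ^ (2 * n) ≠ 0 := pow_ne_zero _ hq
  have hD : q ^ d ≠ 0 := pow_ne_zero _ hq
  rw [Module.End.mul_apply, Xinv_apply, map_smul, Xop_apply, smul_smul, Module.End.one_apply]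
  rw [show q ^ (2 * n) / q ^ d * (q ^ d / q ^ (2 * n)) = 1 by field_simp, one_smul]

omit hg in
lemma rel_XinvX : Xinv e q * Xop e q = 1 := by
  apply ext_bv e
  intro n _
  have hR : q ^ (2 * n) ≠ 0 := pow_ne_zero _ hq
  have hD : q ^ d ≠ 0 := pow_ne_zero _ hq
  rw [Module.End.mul_apply, Xop_apply, map_smul, Xinv_apply, smul_smul, Module.End.one_apply]
  rw [show q ^ d / q ^ (2 * n) * (q ^ (2 * n) / q ^ d) = 1 by field_simp, one_smul]

omit hg in
lemma rel_XY : q • (Xop e q * Yop e a b c q) - q⁻¹ • (Yop e a b c q * Xop e q) =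
    (q - q⁻¹) • (1 : Module.End K V) := by
  apply ext_bv e
  intro n _
  have hR : q ^ (2 * n) ≠ 0 := pow_ne_zero _ hq
  have hD : q ^ d ≠ 0 := pow_ne_zero _ hq
  simp only [LinearMap.sub_apply, LinearMap.smul_apply, Module.End.mul_apply,
    Module.End.one_apply, Xop_apply, Yop_apply, map_add, map_smul, Xop_w]
  rw [show q ^ (2 * (n + 1)) = q ^ (2 * n) * q ^ 2 by ring]
  generalize q ^ (2 * n) = R at *
  generalize q ^ d = D at *
  match_scalars
  · field_simp
  · field_simp
    ring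

lemma rel_YZ : q • (Yop e a b c q * Zop e a b c q) - q⁻¹ • (Zop e a b c q * Yop e a b c q) =
    (q - q⁻¹) • (1 : Module.End K V) := by
  apply ext_bv e
  intro n hn
  have hD : q ^ d ≠ 0 := pow_ne_zero _ hq
  rcases n with _ | n
  · simp only [LinearMap.sub_apply, LinearMap.smul_apply, Module.End.mul_apply,
      Module.End.one_apply, Zop_zero, Yop_apply, map_add, map_smul, Zop_w e a b c q hq hg 0 hn]
    unfold UU
    rw [show q ^ (2 * (0 + 1)) = q ^ 2 by ring, show q ^ (2 * 0) = 1 by ring]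
    generalize q ^ d = D at *
    match_scalars
    · field_simp
      ring
    · field_simp
      ring
  · simp only [LinearMap.sub_apply, LinearMap.smul_apply, Module.End.mul_apply,
      Module.End.one_apply, Zop_succ e a b c q n hn, Yop_apply, map_add, map_smul,
      Zop_w e a b c q hq hg (n + 1) hn]
    rw [gw e a b c q hg n]
    have hR : q ^ (2 * n) ≠ 0 := pow_ne_zero _ hq
    unfold UU
    rw [show q ^ (2 * (n + 1 + 1)) = q ^ (2 * n) * q ^ 4 by ring,
      show q ^ (2 * (n + 1)) = q ^ (2 * n) * q ^ 2 by ring]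
    generalize q ^ (2 * n) = R at *
    generalize q ^ d = D at *
    generalize gg a b c q d (n + 1) = g at *
    match_scalars
    · field_simp
      ring
    · field_simp
      ring
    · field_simp
      ring

omit hg in
lemma rel_ZX : q • (Zop e a b c q * Xop e q) - q⁻¹ • (Xop e q * Zop e a b c q) =
    (q - q⁻¹) • (1 : Module.End K V) := by
  apply ext_bv e
  intro n hn
  have hD : q ^ d ≠ 0 := pow_ne_zero _ hq
  rcases n with _ | n
  · simp only [LinearMap.sub_apply, LinearMap.smul_apply, Module.End.mul_apply,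
      Module.End.one_apply, Zop_zero, Xop_apply, map_smul]
    rw [show q ^ (2 * 0) = 1 by ring]
    generalize q ^ d = D at *
    match_scalars
    field_simp
  · simp only [LinearMap.sub_apply, LinearMap.smul_apply, Module.End.mul_apply,
      Module.End.one_apply, Zop_succ e a b c q n hn, Xop_apply, map_add, map_smul]
    have hR : q ^ (2 * n) ≠ 0 := pow_ne_zero _ hq
    rw [show q ^ (2 * (n + 1)) = q ^ (2 * n) * q ^ 2 by ring]
    generalize q ^ (2 * n) = R at *
    generalize q ^ d = D at *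
    generalize gg a b c q d (n + 1) = g at *
    generalize UU q d (n + 1) = U at *
    match_scalars
    · field_simp
    · field_simp
      ring

variable (ha : a ≠ 0) (hb : b ≠ 0) (hc : c ≠ 0) (hq4 : q ^ 4 ≠ 1) {A As : Module.End K V}
  (hA : ∀ n, n ≤ d → A (bv e n) = lam q d a (d - n) • bv e n + bv e (n + 1))
  (hAs : ∀ n, As (bv e n) = lam q d b n • bv e n + phi a b c q d n • bv e (n - 1))

omit hg hq in
include hq4 in
lemma sq_sub_one_ne : q ^ 2 - 1 ≠ 0 := by
  intro h
  apply hq4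
  have : q ^ 2 = 1 := by linear_combination h
  rw [show q ^ 4 = (q ^ 2) ^ 2 by ring, this, one_pow]

omit hg hq in
include hq4 in
lemma sq_add_one_ne : q ^ 2 + 1 ≠ 0 := by
  intro h
  apply hq4
  have : q ^ 2 = -1 := by linear_combination h
  rw [show q ^ 4 = (q ^ 2) ^ 2 by ring, this]
  ring

include ha hb hq4 hA in
lemma eq_A : A = a • Xop e q + a⁻¹ • Yop e a b c q +
    (c / b / (q - q⁻¹)) • comm (Xop e q) (Yop e a b c q) := by
  have h1 := sq_sub_one_ne q hq4
  have hk : q - q⁻¹ = (q ^ 2 - 1) / q := by field_simp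
  apply ext_bv e
  intro n hn
  have hR : q ^ (2 * n) ≠ 0 := pow_ne_zero _ hq
  have hD : q ^ d ≠ 0 := pow_ne_zero _ hq
  rw [hA n hn, lam_rev q d a n hn hq, gw e a b c q hg n, hk]
  simp only [comm, LinearMap.add_apply, LinearMap.sub_apply, LinearMap.smul_apply,
    Module.End.mul_apply, Xop_apply, Yop_apply, map_add, map_smul, Xop_w]
  unfold gg
  rw [show q ^ (2 * (n + 1)) = q ^ (2 * n) * q ^ 2 by ring]
  generalize wv e a b c q n = w at *
  generalize q ^ (2 * n) = R at *
  generalize q ^ d = D at *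
  match_scalars
  · field_simp
    ring
  · field_simp
    ring

omit hg in
include ha hb hc hq4 hAs in
lemma eq_As : As = b • Zop e a b c q + b⁻¹ • Xop e q +
    (a / c / (q - q⁻¹)) • comm (Zop e a b c q) (Xop e q) := by
  have h1 := sq_sub_one_ne q hq4
  have hk : q - q⁻¹ = (q ^ 2 - 1) / q := by field_simp
  apply ext_bv e
  intro n hn
  have hD : q ^ d ≠ 0 := pow_ne_zero _ hq
  rw [hAs n, lam_eq q d b n hq, phi_eq a b c q d n ha hb hc hq, hk]
  rcases n with _ | n
  · simp only [comm, LinearMap.add_apply, LinearMap.sub_apply, LinearMap.smul_apply,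
      Module.End.mul_apply, Xop_apply, Zop_zero, map_smul]
    rw [show q ^ (2 * 0) = 1 by ring]
    generalize q ^ d = D at *
    match_scalars
    field_simp
    ring
  · rw [Nat.add_sub_cancel]
    simp only [comm, LinearMap.add_apply, LinearMap.sub_apply, LinearMap.smul_apply,
      Module.End.mul_apply, Xop_apply, Zop_succ e a b c q n hn, map_add, map_smul]
    have hR : q ^ (2 * n) ≠ 0 := pow_ne_zero _ hq
    unfold UU gg
    rw [show q ^ (2 * (n + 1)) = q ^ (2 * n) * q ^ 2 by ring]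
    generalize q ^ (2 * n) = R at *
    generalize q ^ d = D at *
    match_scalars
    · field_simp
      ring
    · field_simp
      ring

include ha hb hc hq4 hA hAs in
lemma eq_Aeps (Ae : Module.End K V) (hAe : IsAeps a b c q d A As Ae) :
    Ae = c • Yop e a b c q + c⁻¹ • Zop e a b c q +
    (b / a / (q - q⁻¹)) • comm (Yop e a b c q) (Zop e a b c q) := by
  have h1 := sq_sub_one_ne q hq4
  have h2 := sq_add_one_ne q hq4
  have hk : q - q⁻¹ = (q ^ 2 - 1) / q := by field_simp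
  have hk2 : q ^ 2 - (q ^ 2)⁻¹ = (q ^ 2 - 1) * (q ^ 2 + 1) / q ^ 2 := by field_simp; ring
  have hk3 : (q ^ 2 - (q ^ 2)⁻¹)⁻¹ = q ^ 2 / ((q ^ 2 - 1) * (q ^ 2 + 1)) := by
    rw [hk2, inv_div]
  have hk4 : q ^ 2 - (q ^ 2)⁻¹ ≠ 0 := by
    rw [hk2]
    exact div_ne_zero (mul_ne_zero h1 h2) (pow_ne_zero _ hq)
  have hAe' : Ae = (q ^ 2 - (q ^ 2)⁻¹)⁻¹ • (q⁻¹ • (A * As) - q • (As * A) +
    ((q - q⁻¹) * ((a + a⁻¹) * (b + b⁻¹) + (c + c⁻¹) * (q ^ (d + 1) + (q ^ (d + 1))⁻¹))) •
      (1 : Module.End K V)) := by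
    rw [← hAe, smul_smul, inv_mul_cancel₀ hk4, one_smul]
  apply ext_bv e
  intro n hn
  have hD : q ^ d ≠ 0 := pow_ne_zero _ hq
  rw [hAe', hk3, hk]
  rcases n with _ | n
  · have e1 : As (bv e 0) = lam q d b 0 • bv e 0 := by
      rw [hAs 0, phi_eq a b c q d 0 ha hb hc hq]; simp
    have e2 : A (bv e 0) = lam q d a (d - 0) • bv e 0 + bv e (0 + 1) := hA 0 hn
    have e3 : As (bv e (0 + 1)) = lam q d b (0 + 1) • bv e (0 + 1) +
      phi a b c q d (0 + 1) • bv e 0 := by
      rw [hAs (0 + 1), Nat.add_sub_cancel]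
    simp only [comm, LinearMap.add_apply, LinearMap.sub_apply, LinearMap.smul_apply,
      Module.End.mul_apply, Module.End.one_apply, Yop_apply, Zop_zero, map_add, map_smul,
      e1, e2, e3, Zop_w e a b c q hq hg 0 hn]
    rw [gw e a b c q hg 0, lam_rev q d a 0 hn hq, lam_eq q d b 0 hq, lam_eq q d b (0 + 1) hq,
      phi_eq a b c q d (0 + 1) ha hb hc hq]
    unfold UU gg
    rw [show q ^ (2 * (0 + 1)) = q ^ 2 by ring, show q ^ (2 * 0) = 1 by ring,
      show q ^ (d + 1) = q ^ d * q by ring]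
    generalize wv e a b c q 0 = w at *
    generalize q ^ d = D at *
    match_scalars
    · field_simp
      ring
    · field_simp
      ring
  · have e1 : As (bv e (n + 1)) = lam q d b (n + 1) • bv e (n + 1) +
      phi a b c q d (n + 1) • bv e n := by
      rw [hAs (n + 1), Nat.add_sub_cancel]
    have e2 : A (bv e (n + 1)) = lam q d a (d - (n + 1)) • bv e (n + 1) + bv e (n + 1 + 1) :=
      hA (n + 1) hn
    have e3 : As (bv e (n + 1 + 1)) = lam q d b (n + 1 + 1) • bv e (n + 1 + 1) +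
      phi a b c q d (n + 1 + 1) • bv e (n + 1) := by
      rw [hAs (n + 1 + 1), Nat.add_sub_cancel]
    have e4 : A (bv e n) = lam q d a (d - n) • bv e n + bv e (n + 1) := hA n (by omega)
    simp only [comm, LinearMap.add_apply, LinearMap.sub_apply, LinearMap.smul_apply,
      Module.End.mul_apply, Module.End.one_apply, Yop_apply, Zop_succ e a b c q n hn,
      map_add, map_smul, e1, e2, e3, e4, Zop_w e a b c q hq hg (n + 1) hn]
    rw [gw e a b c q hg n, gw e a b c q hg (n + 1), lam_rev q d a n (by omega) hq,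
      lam_rev q d a (n + 1) hn hq, lam_eq q d b (n + 1) hq, lam_eq q d b (n + 1 + 1) hq,
      phi_eq a b c q d (n + 1) ha hb hc hq, phi_eq a b c q d (n + 1 + 1) ha hb hc hq]
    have hR : q ^ (2 * n) ≠ 0 := pow_ne_zero _ hq
    unfold UU gg
    rw [show q ^ (2 * (n + 1 + 1)) = q ^ (2 * n) * q ^ 4 by ring,
      show q ^ (2 * (n + 1)) = q ^ (2 * n) * q ^ 2 by ring,
      show q ^ (d + 1) = q ^ d * q by ring]
    generalize wv e a b c q (n + 1) = w' at *
    generalize wv e a b c q n = w at *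
    generalize q ^ (2 * n) = R at *
    generalize q ^ d = D at *
    match_scalars
    · field_simp
      ring
    · field_simp
      ring
    · field_simp
      ring

end Ops

/-! ## The module structure -/

section Main

variable {K : Type u} [Field K] {V : Type v} [AddCommGroup V] [Module K V]

/-- the homomorphism of `U_q(sl2)` given by four operators -/
noncomputable def rho (q : K) (X Xi Y Z : Module.End K V) (h1 : X * Xi = 1) (h2 : Xi * X = 1)
    (h3 : q • (X * Y) - q⁻¹ • (Y * X) = (q - q⁻¹) • (1 : Module.End K V))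
    (h4 : q • (Y * Z) - q⁻¹ • (Z * Y) = (q - q⁻¹) • (1 : Module.End K V))
    (h5 : q • (Z * X) - q⁻¹ • (X * Z) = (q - q⁻¹) • (1 : Module.End K V)) :
    Uq q →ₐ[K] Module.End K V :=
  RingQuot.liftAlgHom K ⟨FreeAlgebra.lift K
    (fun g => match g with | Gen.x => X | Gen.xi => Xi | Gen.y => Y | Gen.z => Z), by
      intro s t hst
      cases hst <;> simp [h1, h2, h3, h4, h5]⟩

lemma rho_gen (q : K) (X Xi Y Z : Module.End K V) (h1 : X * Xi = 1) (h2 : Xi * X = 1)
    (h3 : q • (X * Y) - q⁻¹ • (Y * X) = (q - q⁻¹) • (1 : Module.End K V))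
    (h4 : q • (Y * Z) - q⁻¹ • (Z * Y) = (q - q⁻¹) • (1 : Module.End K V))
    (h5 : q • (Z * X) - q⁻¹ • (X * Z) = (q - q⁻¹) • (1 : Module.End K V)) (g : Gen) :
    rho q X Xi Y Z h1 h2 h3 h4 h5 (gen q g) =
      match g with | Gen.x => X | Gen.xi => Xi | Gen.y => Y | Gen.z => Z := by
  simp [rho, gen]

end Main

/-- **MP_dc3d2a_al, Q1 (affirmative).**  Every `q`-Racah Leonard pair `A, As` as in the question
carries an irreducible `U_q(sl2)`-module structure with the three prescribed expressions for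
`A`, `As` and `A^ε`. -/
theorem result {K : Type u} [Field K] {V : Type v} [AddCommGroup V] [Module K V] (d : ℕ)
    (a b c q : K) (ha : a ≠ 0) (hb : b ≠ 0) (hc : c ≠ 0) (hq : q ≠ 0) (hq4 : q ^ 4 ≠ 1)
    (A As Ae : Module.End K V) (hL : LeonardPair d A As)
    (hP : HasParamArray d A As (lam q d a) (lam q d b) (vphi a b c q d) (phi a b c q d))
    (hAe : IsAeps a b c q d A As Ae) :
    ∃ ρ : Uq q →ₐ[K] Module.End K V, Irred ρ ∧
      A = a • ρ (gen q Gen.x) + a⁻¹ • ρ (gen q Gen.y) +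
        (c / b / (q - q⁻¹)) • comm (ρ (gen q Gen.x)) (ρ (gen q Gen.y)) ∧
      As = b • ρ (gen q Gen.z) + b⁻¹ • ρ (gen q Gen.x) +
        (a / c / (q - q⁻¹)) • comm (ρ (gen q Gen.z)) (ρ (gen q Gen.x)) ∧
      Ae = c • ρ (gen q Gen.y) + c⁻¹ • ρ (gen q Gen.z) +
        (b / a / (q - q⁻¹)) • comm (ρ (gen q Gen.y)) (ρ (gen q Gen.z)) := by
  obtain ⟨_, ⟨e, he1, he2⟩⟩ := hP
  have hA := lower_apply e A _ he1
  have hAs := upper_apply e As _ _ he2
    (by rw [phi_eq a b c q d 0 ha hb hc hq]; simp)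
    (by
      rw [phi_eq a b c q d (d + 1) ha hb hc hq]
      have := UU_top (d := d) q hq
      unfold UU at this
      rw [this, zero_mul, zero_mul])
  have hf := split_ne_zero hL e _ _ _ hA hAs
  have hg : ∀ k, 1 ≤ k → k ≤ d → gg a b c q d k ≠ 0 := by
    intro k hk1 hkd h0
    apply hf k hk1 hkd
    rw [phi_eq a b c q d k ha hb hc hq]
    unfold gg at h0
    rw [h0]
    ring
  have hA' : ∀ n, n ≤ d → A (bv e n) = lam q d a (d - n) • bv e n + bv e (n + 1) :=
    fun n _ => hA n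
  set X := Xop e q
  set Xi := Xinv e q
  set Y := Yop e a b c q
  set Z := Zop e a b c q
  let ρ := rho q X Xi Y Z (rel_XXinv e q hq) (rel_XinvX e q hq) (rel_XY e a b c q hq)
    (rel_YZ e a b c q hq hg) (rel_ZX e a b c q hq)
  have hx : ρ (gen q Gen.x) = X := rho_gen q X Xi Y Z _ _ _ _ _ Gen.x
  have hy : ρ (gen q Gen.y) = Y := rho_gen q X Xi Y Z _ _ _ _ _ Gen.y
  have hz : ρ (gen q Gen.z) = Z := rho_gen q X Xi Y Z _ _ _ _ _ Gen.z
  have eA := eq_A e a b c q hq hg ha hb hq4 hA'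
  have eAs := eq_As e a b c q hq ha hb hc hq4 hAs
  have eAe := eq_Aeps e a b c q hq hg ha hb hc hq4 hA' hAs Ae hAe
  refine ⟨ρ, ⟨⟨⟨e 0, 0, e.ne_zero 0⟩⟩, ?_⟩, ?_, ?_, ?_⟩
  · intro W hW
    refine leonard_irred hL W ?_ ?_
    · intro w hw
      have hAρ : A = ρ (a • gen q Gen.x + a⁻¹ • gen q Gen.y + (c / b / (q - q⁻¹)) •
          (gen q Gen.x * gen q Gen.y - gen q Gen.y * gen q Gen.x)) := by
        simp only [map_add, map_smul, map_sub, map_mul, hx, hy]
        exact eA
      rw [hAρ]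
      exact hW _ w hw
    · intro w hw
      have hAρ : As = ρ (b • gen q Gen.z + b⁻¹ • gen q Gen.x + (a / c / (q - q⁻¹)) •
          (gen q Gen.z * gen q Gen.x - gen q Gen.x * gen q Gen.z)) := by
        simp only [map_add, map_smul, map_sub, map_mul, hx, hz]
        exact eAs
      rw [hAρ]
      exact hW _ w hw
  · rw [hx, hy]; exact eA
  · rw [hz, hx]; exact eAs
  · rw [hy, hz]; exact eAe

end Pool.Agent.Results.MP_dc3d2a_al.EquitableModule
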